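import Pool.Agent.W25.UB.Final
import Pool.Agent.W25.TF.Fin
import Pool.Agent.W150.UBC1a

/-!
# One half of the multiples of every sufficiently divisible number are gaps between consecutive primes

Let `q` be squarefree, `a` coprime to `q` and `ε > 0`. There is `M` such that for EVERY multiple `N` of `M`
there is `L` such that among any `T ≥ L` consecutive multiples of `N` at least `(1/2 - ε) T` are equal to
`p_{n+1} - p_n` with `p_n ≡ a (mod q)`, for at least `x ^ (1 - η)` primes `p_n ≤ x`, for every `η > 0` and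
arbitrarily large `x`.

Proof: the coloured Maynard-Tao theorem with FOUR classes of shifts (`Pool.Agent.W25.UB.thmV`: the pair sums
are bounded with a factor below `4` by an inequality of Bessel type over the second form, with Gaussian
weights, rough Selberg weights beyond the level one half and modified Maynard weights); and helper142's
method (extreme invariant means on several levels, almost periodic parts, the Combinatorial Nullstellensatz
with the Dyson identity, blow-up) for four points: if the multiples of arbitrarily divisible numbers which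
are not gaps had upper Banach density above `1/2`, four classes of shifts without gaps would exist.
-/

namespace Pool.Agent.Results.MP_70e905_nt.ConsecutiveHalf

open Finset Filter Pool.Agent.W59.GB

theorem result (q a : ℕ) (hsq : Squarefree q) (ha : Nat.Coprime a q) (ε : ℝ) (hε : 0 < ε) :
    ∃ M : ℕ, 0 < M ∧ ∀ N : ℕ, 0 < N → M ∣ N → ∃ L : ℕ, ∀ T : ℕ, L ≤ T → ∀ u : ℕ,
      (1 / 2 - ε) * (T : ℝ) ≤
        ({k : ℕ | u < k ∧ k ≤ u + T ∧ ∀ η : ℝ, 0 < η → ∃ᶠ x : ℝ in atTop,
          x ^ (1 - η) ≤ ({n : ℕ | (Nat.nth Nat.Prime n : ℝ) ≤ x ∧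
            Nat.nth Nat.Prime n ≡ a [MOD q] ∧
            Nat.nth Nat.Prime (n + 1) = Nat.nth Nat.Prime n + N * k}.ncard : ℝ)}.ncard : ℝ) := by
  classical
  have hq : 0 < q := Nat.pos_of_ne_zero hsq.ne_zero
  -- an even modulus
  obtain ⟨q', a', hq', h2, hsq', ha', hred⟩ : ∃ q' a' : ℕ, 0 < q' ∧ 2 ∣ q' ∧ Squarefree q' ∧
      a'.Coprime q' ∧ ∀ n : ℕ, n ≡ a' [MOD q'] → n ≡ a [MOD q] := by
    by_cases h2 : 2 ∣ q
    · exact ⟨q, a, hq, h2, hsq, ha, fun n hn => hn⟩
    · have hc2 : Nat.Coprime 2 q := (Nat.prime_two.coprime_iff_not_dvd).2 h2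
      obtain ⟨b, hb2, hbq⟩ := Nat.chineseRemainder hc2 1 a
      refine ⟨2 * q, b, by omega, dvd_mul_right 2 q, ?_, ?_, fun n hn => ?_⟩
      · exact (Nat.squarefree_mul hc2).2 ⟨Nat.prime_two.squarefree, hsq⟩
      · refine Nat.Coprime.mul_right ?_ ?_
        · have h3 := hb2.gcd_eq
          rw [Nat.gcd_one_left] at h3
          exact h3
        · have h3 := hbq.gcd_eq
          rw [Nat.Coprime, h3]
          exact ha
      · exact (hn.of_mul_left 2).trans hbq
  obtain ⟨M, hM, h⟩ := Pool.Agent.W25.TF.tf4 Pool.Agent.W25.TF.s_maiF4 (GapB q' a') q'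
    (Pool.Agent.W150.UBC1a.main Pool.Agent.W25.UB.thmV q' a' hq' h2 hsq' ha') ε hε
  refine ⟨q' * M, Nat.mul_pos hq' hM, fun N hN hd => ?_⟩
  obtain ⟨t, rfl⟩ := hd
  have ht : 0 < t := Nat.pos_of_ne_zero (by rintro rfl; simp at hN)
  obtain ⟨L, hL⟩ := h (M * t) (Nat.mul_pos hM ht) (Dvd.intro _ rfl)
  refine ⟨L, fun T hT u => (hL T hT u).trans ?_⟩
  rw [Nat.cast_le]
  refine Set.ncard_le_ncard ?_ ((Set.finite_Ioc u (u + T)).subset fun k hk => ⟨hk.1, hk.2.1⟩)
  rintro k ⟨h1, h2, h3⟩
  refine ⟨h1, h2, fun η hη => ?_⟩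
  refine (nthB h3 η hη).mono fun x hx => hx.trans ?_
  rw [Nat.cast_le]
  refine Set.ncard_le_ncard ?_ ?_
  · rintro n ⟨hn1, hn2, hn3⟩
    refine ⟨hn1, hred _ hn2, ?_⟩
    rw [hn3]
    ring
  · apply (Set.finite_Iic ⌊x⌋₊).subset
    rintro n ⟨hn1, -⟩
    rw [Set.mem_Iic]
    apply Nat.le_floor
    have h4 := Nat.add_two_le_nth_prime n
    have h5 : (n : ℝ) ≤ (Nat.nth Nat.Prime n : ℝ) := by exact_mod_cast (by omega)
    exact h5.trans hn1

end Pool.Agent.Results.MP_70e905_nt.ConsecutiveHalf
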