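import Pool.Agent.W25.UB.Final
import Pool.Agent.W25.UB.Pol
import Pool.Agent.W150.UBC1a
import Pool.Agent.W432.UB.C1b

/-!
# A third of all even numbers, in every long window, are gaps between consecutive primes

Let `m` be even, `N` an even squarefree divisor of `m` and `a` coprime to `N`. For every `ε > 0` there is
`L` such that among ANY `M ≥ L` consecutive multiples of `m` at least a proportion `1/3 - ε` are equal to
`p_{n+1} - p_n` with `p_n ≡ a (mod N)`, for at least `x ^ (1 - η)` primes `p_n ≤ x`, for every `η > 0`
and arbitrarily large `x`. For `m = N = 2`: in every long interval at least a third of all even numbers.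

Proof: the coloured Maynard-Tao theorem with FOUR classes of shifts (`Pool.Agent.W25.UB.thmV`): the pair
sums are bounded with a factor below `4` by an inequality of Bessel type over the second form, with
Gaussian weights, rough Selberg weights beyond the level one half (sums of Kloosterman sums) and Maynard
weights modified in the coordinates of the pair; then a ladder argument modulo `3`.
-/

namespace Pool.Agent.Results.MP_70e905_nt.EveryWindowThird

open Finset Filter

theorem result (m N a : ℕ) (hm : 0 < m) (hN2 : 2 ∣ N) (hNm : N ∣ m) (hsq : Squarefree N)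
    (ha : Nat.Coprime a N) (ε : ℝ) (hε : 0 < ε) :
    ∃ L : ℕ, ∀ M : ℕ, L ≤ M → ∀ u : ℕ,
      (1 / 3 - ε) * (M : ℝ) ≤
        ({k : ℕ | u < k ∧ k ≤ u + M ∧ ∀ η : ℝ, 0 < η → ∃ᶠ x : ℝ in atTop,
          x ^ (1 - η) ≤ ({n : ℕ | (Nat.nth Nat.Prime n : ℝ) ≤ x ∧
            Nat.nth Nat.Prime n ≡ a [MOD N] ∧
            Nat.nth Nat.Prime (n + 1) = Nat.nth Nat.Prime n + m * k}.ncard : ℝ)}.ncard : ℝ) :=
  Pool.Agent.W25.UB.third_of (Pool.Agent.W150.UBC1a.main Pool.Agent.W25.UB.thmV)
    Pool.Agent.W432.UB.main m N a hm hN2 hNm hsq ha ε hε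

end Pool.Agent.Results.MP_70e905_nt.EveryWindowThird
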