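import Pool.Agent.W142.TB.Fin
import Pool.Agent.W473.UBCB
import Pool.Agent.W25.UB.FinalT

/-!
# More than half of the multiples of every sufficiently divisible number are differences of primes

There are absolute constants `δ > 0` and `J` such that for all squarefree `q` and all `a` coprime to `q` there
is `M` such that for EVERY multiple `N` of `M`, in every sufficiently long window at least a proportion
`1/2 + δ` of the multiples `N k` of `N` are differences `p_{n+j} - p_n` with `1 ≤ j ≤ J`, `p_n ≡ a (mod q)`,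
for at least `x ^ (1 - η)` primes `p_n ≤ x`, for every `η > 0` and arbitrarily large `x`.
-/

namespace Pool.Agent.Results.MP_70e905_nt.MoreThanHalf

open Finset Filter

theorem result : ∃ δ : ℝ, 0 < δ ∧ ∃ J : ℕ, ∀ q a : ℕ, 0 < q → Squarefree q → Nat.Coprime a q →
    ∃ M : ℕ, 0 < M ∧ ∀ N : ℕ, 0 < N → M ∣ N → ∃ L : ℕ, ∀ T : ℕ, L ≤ T → ∀ u : ℕ,
      (1 / 2 + δ) * (T : ℝ) ≤
        ({k : ℕ | u < k ∧ k ≤ u + T ∧ ∃ j : ℕ, 1 ≤ j ∧ j ≤ J ∧ ∀ η : ℝ, 0 < η → ∃ᶠ x : ℝ in atTop,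
          x ^ (1 - η) ≤ ({n : ℕ | (Nat.nth Nat.Prime n : ℝ) ≤ x ∧
            Nat.nth Nat.Prime n ≡ a [MOD q] ∧
            Nat.nth Nat.Prime (n + j) = Nat.nth Nat.Prime n + N * k}.ncard : ℝ)}.ncard : ℝ) :=
  Pool.Agent.W142.TB.hfB' (Pool.Agent.W473.UBCB.main Pool.Agent.W25.UB.thmVG)

end Pool.Agent.Results.MP_70e905_nt.MoreThanHalf
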