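import Pool.Agent.W70.HRC.Fin
import Pool.Agent.H387R2.U2

/-!
# Even numbers as gaps between consecutive primes, with the right order of magnitude

In every set `A` of at least `η log x` positive integers up to `Λ log x` (`Λ > 0` an absolute
constant, `η > 0` as small as we like) a proportion `1/4 - ε` of the pairs `a < a'` of elements,
measured by the singular series `𝔖 (a' - a)`, has the property that `a' - a` is the difference
`p_{n+1} - p_n` of two CONSECUTIVE primes for at least `δ 𝔖 (a' - a) x / log² x` primes `p_n ≤ x`,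
which is the conjectured number up to the constant `δ > 0`.
-/

set_option autoImplicit false

open Finset

namespace Pool.Agent.Results.MP_70e905_nt.RightOrderGaps

/-- `p` and `p + d` are consecutive primes -/
def Gap (p d : ℕ) : Prop := p.Prime ∧ (p + d).Prime ∧ ∀ q : ℕ, p < q → q < p + d → ¬ q.Prime

open Classical in
/-- the number of primes `p ≤ x` for which `p + d` is the next prime -/
noncomputable def gapCount (x d : ℕ) : ℕ := ((Icc 1 x).filter (fun p => Gap p d)).card

/-- the factor at `p` of the singular series -/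
noncomputable def loc (d p : ℕ) : ℝ :=
  (1 - (if p ∣ d then 1 else 2) / (p : ℝ)) / (1 - 1 / (p : ℝ)) ^ 2

/-- the singular series of the pair `n, n + d` -/
noncomputable def 𝔖 (d : ℕ) : ℝ := ∏' p : Nat.Primes, loc d p

open Pool.Agent.H387R2.Uni Pool.Agent.W70.HRC

theorem nuT_pair {a b p : ℕ} (h : a < b) : (nuT {a, b} p : ℝ) = if p ∣ b - a then 1 else 2 := by
  unfold nuT
  rw [image_insert, image_singleton]
  have h1 : a % p = b % p ↔ p ∣ b - a := by
    rw [← Nat.modEq_iff_dvd' h.le]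
    exact Iff.rfl
  by_cases hp : p ∣ b - a
  · rw [if_pos hp, h1.mpr hp]
    simp
  · rw [if_neg hp, card_pair (fun h2 => hp (h1.mp h2))]
    norm_num

theorem loc_eq {a b p : ℕ} (h : a < b) : locT {a, b} p = loc (b - a) p := by
  unfold locT loc
  rw [nuT_pair h, card_pair h.ne]

theorem CT_eq {a b : ℕ} (h : a < b) : CT {a, b} = 𝔖 (b - a) := by
  unfold CT 𝔖
  simp_rw [loc_eq h]

theorem S_hasProd {d : ℕ} (hd : 1 ≤ d) : HasProd (fun p : Nat.Primes => loc d p) (𝔖 d) := by
  have h : (1 : ℕ) < 1 + d := by omega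
  have h1 := CT_hasProd {1, 1 + d}
  have h2 : 1 + d - 1 = d := by omega
  rw [CT_eq h, h2] at h1
  simp_rw [loc_eq h, h2] at h1
  exact h1

theorem S_pos {d : ℕ} (hd : 1 ≤ d) (he : Even d) : 0 < 𝔖 d := by
  have h : (1 : ℕ) < 1 + d := by omega
  have h2 : 1 + d - 1 = d := by omega
  have h3 := CT_eq h
  rw [h2] at h3
  rw [← h3, ← CT_en]
  apply Pool.Agent.H386R2.HL.singularSeries_pos (en_inj _)
  intro p hp
  rw [nu_en]
  have h4 := nuT_pair (p := p) h
  rw [h2] at h4
  rcases hp.eq_two_or_odd' with rfl | hodd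
  · rw [if_pos he.two_dvd] at h4
    have : nuT {1, 1 + d} 2 = 1 := by exact_mod_cast h4
    omega
  · have h5 : (nuT {1, 1 + d} p : ℝ) ≤ 2 := by
      rw [h4]; split_ifs <;> norm_num
    have h6 : nuT {1, 1 + d} p ≤ 2 := by exact_mod_cast h5
    have h7 := hp.two_le
    have h8 : p ≠ 2 := by
      rintro rfl
      exact absurd hodd (by decide)
    omega

/-- sums over pairs -/
theorem sum_pairs (A : Finset ℕ) (f : Finset ℕ → ℝ) (Q : Finset ℕ → Prop) [DecidablePred Q] :
    ∑ T ∈ (A.powersetCard 2).filter Q, f T =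
      ∑ q ∈ ((A ×ˢ A).filter (fun q => q.1 < q.2)).filter (fun q => Q {q.1, q.2}),
        f {q.1, q.2} := by
  symm
  apply sum_bij (fun q _ => ({q.1, q.2} : Finset ℕ))
  · intro q hq
    rw [mem_filter, mem_filter, mem_product] at hq
    rw [mem_filter, mem_powersetCard]
    refine ⟨⟨?_, card_pair hq.1.2.ne⟩, hq.2⟩
    intro x hx
    rw [mem_insert, mem_singleton] at hx
    rcases hx with rfl | rfl
    · exact hq.1.1.1
    · exact hq.1.1.2
  · rintro ⟨a, b⟩ hq ⟨c, d⟩ hq' h
    rw [mem_filter, mem_filter] at hq hq'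
    simp only at h hq hq'
    have h1 := hq.1.2
    have h2 := hq'.1.2
    have ha : a ∈ ({c, d} : Finset ℕ) := by rw [← h]; simp
    have hb : b ∈ ({c, d} : Finset ℕ) := by rw [← h]; simp
    rw [mem_insert, mem_singleton] at ha hb
    rcases ha with rfl | rfl <;> rcases hb with rfl | rfl
    · omega
    · rfl
    · omega
    · omega
  · intro T hT
    rw [mem_filter, mem_powersetCard] at hT
    obtain ⟨⟨hTA, hT2⟩, hQ⟩ := hT
    obtain ⟨x, y, hxy, rfl⟩ := card_eq_two.mp hT2
    have hx : x ∈ A := hTA (by simp)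
    have hy : y ∈ A := hTA (by simp)
    rcases lt_or_gt_of_ne hxy with h | h
    · refine ⟨(x, y), ?_, rfl⟩
      rw [mem_filter, mem_filter, mem_product]
      exact ⟨⟨⟨hx, hy⟩, h⟩, hQ⟩
    · refine ⟨(y, x), ?_, pair_comm _ _⟩
      rw [mem_filter, mem_filter, mem_product]
      refine ⟨⟨⟨hy, hx⟩, h⟩, ?_⟩
      rw [pair_comm]
      exact hQ
  · intro q _
    rfl

theorem cnT_le {X x a b : ℕ} (hab : a < b) (hx : 2 * X + a ≤ x) (_ : 1 ≤ X) :
    cnT X {a, b} ≤ gapCount x (b - a) := by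
  classical
  unfold cnT gapCount
  apply card_le_card_of_injOn (fun n => n + a)
  · intro n hn
    rw [mem_coe, mem_filter, mem_Ico] at hn
    obtain ⟨hn1, hn2, hn3⟩ := hn
    rw [mem_coe, mem_filter, mem_Icc]
    show (1 ≤ n + a ∧ n + a ≤ x) ∧ Gap (n + a) (b - a)
    refine ⟨⟨by omega, by omega⟩, hn2 a (by simp), ?_, ?_⟩
    · have h1 := hn2 b (by simp)
      have h2 : n + a + (b - a) = n + b := by omega
      rw [h2]
      exact h1
    · intro q h1 h2 hq
      have h3 := hn3 (q - n) ⟨a, by simp, by omega⟩ ⟨b, by simp, by omega⟩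
        (by rw [show n + (q - n) = q by omega]; exact hq)
      rw [mem_insert, mem_singleton] at h3
      omega
  · intro n _ m _ h
    simp only at h
    omega

open Classical in
/-- For every positive integer `d` the product `𝔖 d` converges, and it is positive for even `d`.
There is `Λ > 0` such that for all `η, ε > 0` there are `δ > 0` and `x₀` such that for all `x ≥ x₀`
and every set `A` of positive integers `≤ Λ log x` with at least `η log x` elements: the pairs
`a < a'` of elements of `A` for which at least `δ 𝔖 (a' - a) x / log² x` primes `p ≤ x` have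
`p + (a' - a)` as the next prime carry at least the proportion `1/4 - ε` of the sum of
`𝔖 (a' - a)` over all pairs `a < a'` of elements of `A`. -/
theorem result :
    (∀ d : ℕ, 1 ≤ d → HasProd (fun p : Nat.Primes => loc d p) (𝔖 d) ∧ (Even d → 0 < 𝔖 d)) ∧
    ∃ Λ : ℝ, 0 < Λ ∧ ∀ η ε : ℝ, 0 < η → 0 < ε → ∃ δ : ℝ, 0 < δ ∧ ∃ x₀ : ℕ, ∀ x : ℕ, x₀ ≤ x →
      ∀ A : Finset ℕ, (∀ a ∈ A, 1 ≤ a ∧ (a : ℝ) ≤ Λ * Real.log x) → η * Real.log x ≤ A.card →
      (1 / 4 - ε) * ∑ q ∈ (A ×ˢ A).filter (fun q => q.1 < q.2), 𝔖 (q.2 - q.1) ≤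
        ∑ q ∈ ((A ×ˢ A).filter (fun q => q.1 < q.2)).filter (fun q =>
          δ * 𝔖 (q.2 - q.1) * (x / Real.log x ^ 2) ≤ gapCount x (q.2 - q.1)),
          𝔖 (q.2 - q.1) := by
  refine ⟨fun d hd => ⟨S_hasProd hd, S_pos hd⟩, ?_⟩
  obtain ⟨Λ, hΛ, hΛ1, hF⟩ := fin_one
  refine ⟨Λ / 2, by positivity, fun η ε hη hε => ?_⟩
  obtain ⟨δ, hδ, X₀, hX₀⟩ := hF η ε hη hε
  refine ⟨δ / 4, by positivity, 3 * X₀ + 20, fun x hx A hA hcard => ?_⟩
  obtain ⟨X, hX⟩ : ∃ X : ℕ, X = x / 3 := ⟨_, rfl⟩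
  have hX1 : 3 * X ≤ x := by omega
  have hX2 : x ≤ 3 * X + 2 := by omega
  have hX6 : 6 ≤ X := by omega
  have hXX₀ : X₀ ≤ X := by omega
  have hXr : (6 : ℝ) ≤ X := by exact_mod_cast hX6
  have hxr : (X : ℝ) ≤ x := by exact_mod_cast (by omega : X ≤ x)
  have hx4 : (x : ℝ) ≤ 4 * X := by exact_mod_cast (by omega : x ≤ 4 * X)
  have hL : 0 < Real.log X := Real.log_pos (by linarith)
  have hLx : Real.log X ≤ Real.log x := Real.log_le_log (by linarith) hxr
  have hL2 : Real.log x ≤ 2 * Real.log X := by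
    have h1 : (x : ℝ) ≤ (X : ℝ) ^ 2 := by nlinarith
    calc Real.log x ≤ Real.log ((X : ℝ) ^ 2) := Real.log_le_log (by linarith) h1
      _ = 2 * Real.log X := by rw [Real.log_pow]; norm_num
  have hA' : ∀ a ∈ A, 1 ≤ a ∧ (a : ℝ) ≤ Λ * Real.log X := by
    intro a ha
    obtain ⟨h1, h2⟩ := hA a ha
    refine ⟨h1, h2.trans ?_⟩
    calc Λ / 2 * Real.log x ≤ Λ / 2 * (2 * Real.log X) := by gcongr
      _ = Λ * Real.log X := by ring
  have haX : ∀ a ∈ A, a ≤ X := by
    intro a ha
    have h1 := (hA' a ha).2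
    have h2 : Real.log X ≤ X := (Real.log_le_self (by linarith))
    have h3 : Λ * Real.log X ≤ 1 * X := by
      apply mul_le_mul hΛ1 h2 hL.le (by norm_num)
    have h4 : (a : ℝ) ≤ X := by linarith
    exact_mod_cast h4
  have hcard' : η * Real.log X ≤ A.card := le_trans (by gcongr) hcard
  have key := hX₀ X hXX₀ A hA' hcard'
  simp only [show 1 + 1 = 2 from rfl] at key
  rw [sum_pairs] at key
  have hall : ∑ T ∈ A.powersetCard 2, CT T =
      ∑ q ∈ (A ×ˢ A).filter (fun q => q.1 < q.2), CT {q.1, q.2} := by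
    have := sum_pairs A CT (fun _ => True)
    simpa using this
  rw [hall] at key
  have hc : ∀ q ∈ (A ×ˢ A).filter (fun q => q.1 < q.2), CT {q.1, q.2} = 𝔖 (q.2 - q.1) := by
    intro q hq
    exact CT_eq (mem_filter.mp hq).2
  rw [sum_congr rfl hc, sum_congr rfl (fun q hq => hc q (mem_filter.mp hq).1)] at key
  refine key.trans ?_
  apply sum_le_sum_of_subset_of_nonneg
  · intro q hq
    rw [mem_filter] at hq ⊢
    refine ⟨hq.1, ?_⟩
    have hq1 := hq.1
    rw [mem_filter, mem_product] at hq1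
    have hlt := hq1.2
    have h1 := hq.2
    rw [CT_eq hlt] at h1
    have h2 : cnT X {q.1, q.2} ≤ gapCount x (q.2 - q.1) :=
      cnT_le hlt (by have := haX _ hq1.1.1; omega) (by omega)
    have h2' : (cnT X {q.1, q.2} : ℝ) ≤ gapCount x (q.2 - q.1) := by exact_mod_cast h2
    refine le_trans ?_ (h1.trans h2')
    have h3 : 0 ≤ 𝔖 (q.2 - q.1) := by rw [← CT_eq hlt]; exact CT_nonneg _
    have h4 : (x : ℝ) / Real.log x ^ 2 ≤ 4 * X / Real.log X ^ 2 := by
      apply div_le_div₀ (by positivity) hx4 (by positivity)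
      exact pow_le_pow_left₀ hL.le hLx 2
    calc δ / 4 * 𝔖 (q.2 - q.1) * (x / Real.log x ^ 2) ≤
        δ / 4 * 𝔖 (q.2 - q.1) * (4 * X / Real.log X ^ 2) := by gcongr
      _ = δ * (𝔖 (q.2 - q.1) * (X / Real.log X ^ 2)) := by ring
  · intro q hq _
    rw [← hc q (mem_filter.mp hq).1]
    exact CT_nonneg _

end Pool.Agent.Results.MP_70e905_nt.RightOrderGaps
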