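import Pool.Agent.W123.RU.DiffData
import Pool.Agent.W123.RU.Sieve

set_option autoImplicit false

/-!
# Every even `h`: primes `p` with `p + h` almost prime in all windows around a positive proportion of `n`

Uniformly in the even number `h ≤ x ^ B`. Put `S(h) = ∏_{q ∣ h, q > 2} (q - 1) / (q - 2)`. There are `r`
and `c₁, c₂, K, κ > 0` such that for all large `x` and every even `h` with `2 ≤ h ≤ x ^ B` at least
`κ x` of the integers `n` in `(x, 2 x]` are regular: every interval `(a, b]` with `a ≤ n ≤ b` and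
`K log² x / S(h) ≤ b - a ≤ n` contains between `c₁ S(h) (b - a) / log² x` and
`c₂ S(h) (b - a) / log² x` primes `p` for which `p + h` has at most `r` prime factors, all larger than
`x ^ (1 / r)`.
-/

namespace Pool.Agent.Results.MP_70e905_nt.ZAlmostPrimeWindows

open Finset Filter

/-- `p` is prime and `p + h` has at most `r` prime factors (with multiplicity), all of them larger
than `x ^ (1 / r)`. -/
def AlmostPair (r h x p : ℕ) : Prop :=
  p.Prime ∧ (p + h).primeFactorsList.length ≤ r ∧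
    ∀ q : ℕ, q.Prime → q ∣ p + h → (x : ℝ) ^ (1 / (r : ℝ)) < (q : ℝ)

/-- the arithmetic factor of the Hardy-Littlewood prediction -/
noncomputable def S (h : ℕ) : ℝ :=
  ∏ p ∈ h.primeFactors.filter (fun p => 2 < p), ((p : ℝ) - 1) / ((p : ℝ) - 2)

open Classical in
/-- `n` is regular for `h`. -/
def Regular (r h : ℕ) (c₁ c₂ K : ℝ) (x n : ℕ) : Prop :=
  ∀ a b : ℕ, a ≤ n → n ≤ b → K * Real.log x ^ 2 / S h ≤ (b : ℝ) - a → (b : ℝ) - a ≤ n →
    c₁ * S h * ((b : ℝ) - a) / Real.log x ^ 2 ≤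
      (((Finset.Ioc a b).filter (fun p => AlmostPair r h x p)).card : ℝ) ∧
    (((Finset.Ioc a b).filter (fun p => AlmostPair r h x p)).card : ℝ) ≤
      c₂ * S h * ((b : ℝ) - a) / Real.log x ^ 2

open Pool.Agent.W123.RP Pool.Agent.H373R2.T7 Pool.Agent.W123.RU Pool.Agent.W123.RU.Gold
  Pool.Agent.W123.RU.Diff

lemma S_eq (h : ℕ) : S h = sing h := rfl

open Classical in
/-- **Regular windows, uniformly in the even number.** -/
theorem result (B : ℕ) (hB : 2 ≤ B) :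
    ∃ (r : ℕ) (c₁ c₂ K κ : ℝ), 0 < c₁ ∧ 0 < c₂ ∧ 0 < K ∧ 0 < κ ∧
    ∀ᶠ x : ℕ in atTop, ∀ h : ℕ, Even h → 1 ≤ h → h ≤ x ^ B →
      κ * x ≤ (((Finset.Ioc x (2 * x)).filter (fun n => Regular r h c₁ c₂ K x n)).card : ℝ) := by
  obtain ⟨D', hdata⟩ := Diff.data B hB
  obtain ⟨K1, hK1, hmain⟩ := sieve_regular 2 4 3 D' 1 (by norm_num)
  obtain ⟨R, hK1R, hR0, cS, C3, hcS, hC3, hdata⟩ := hdata K1
  obtain ⟨c₁, c₂, K, κ, L0, hc₁, hc₂, hK, hκ, hreg⟩ := hmain R hK1R cS C3 hcS hC3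
  refine ⟨R, c₁, c₂, K, κ, hc₁, hc₂, by linarith, hκ, ?_⟩
  filter_upwards [hdata L0, hreg] with X hX hreg
  intro h hE h1 hXB
  obtain ⟨L, hL⟩ : ∃ L : ℝ, L = Real.log X ^ 2 / sing h := ⟨_, rfl⟩
  obtain ⟨hS0, hlX, hL0, hL8, hVy, hlarge, hP0⟩ := hX h hE h1 hXB L hL
  obtain ⟨P, hP⟩ : ∃ P : ℕ → Prop, ∀ m, P m ↔ AlmostPair R h X m := ⟨_, fun m => Iff.rfl⟩
  obtain ⟨hPQ, hcnt⟩ := hP0 P (fun m => hP m)
  have hfin := hreg (Diff.Q h) (Gold.Co h) L {h} (sdata h hE) hL0 hL8 hVy (by simp) hlarge P P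
    (fun n hn => hn) hPQ hcnt
  refine hfin.trans ?_
  have hLpos : 0 < L := by rw [hL]; positivity
  have hsub : (Finset.Ioc X (2 * X)).filter (fun n => ∀ a b : ℕ, a ≤ n → n ≤ b →
      K * L ≤ (b : ℝ) - a → (b : ℝ) - a ≤ n →
        c₁ * ((b : ℝ) - a) / L ≤ co P a b ∧
          (co P a b : ℝ) ≤ c₂ * ((b : ℝ) - a) / L) ⊆
      (Finset.Ioc X (2 * X)).filter (fun n => Regular R h c₁ c₂ K X n) := by
    intro n hn
    rw [mem_filter] at hn ⊢
    refine ⟨hn.1, ?_⟩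
    intro a b han hnb hab hbn
    have h1 := hn.2 a b han hnb (by
      refine le_trans (le_of_eq ?_) hab
      rw [hL, S_eq]
      ring) hbn
    have hco : co P a b = ((Finset.Ioc a b).filter (fun p => AlmostPair R h X p)).card := by
      unfold co
      congr 1
      ext m
      rw [mem_filter, mem_filter, hP]
    rw [hco] at h1
    have e1 : c₁ * S h * ((b : ℝ) - a) / Real.log X ^ 2 = c₁ * ((b : ℝ) - a) / L := by
      rw [hL, S_eq]; field_simp
    have e2 : c₂ * S h * ((b : ℝ) - a) / Real.log X ^ 2 = c₂ * ((b : ℝ) - a) / L := by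
      rw [hL, S_eq]; field_simp
    rw [e1, e2]
    exact h1
  exact_mod_cast card_le_card hsub

end Pool.Agent.Results.MP_70e905_nt.ZAlmostPrimeWindows
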