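import Pool.Agent.W27.FB.Prime
import Pool.Agent.W505.FN.NullS
import Pool.Agent.W782.FN.Mean
import Pool.Agent.W505.FN.Wmh
import Pool.Agent.W975.FN.Trg
import Pool.Agent.W505.FN.Clamp
import Pool.Agent.W352.FN.Bohr
import Pool.Agent.W253.FN.Dens
import Pool.Agent.W405.FN.Conv
import Pool.Agent.W372.FN.Appr

set_option autoImplicit false

/-!
# Folner's theorem for differences of consecutive primes

For all `N, M ≥ 1` there is a Bohr neighbourhood of zero `B` (of positive lower Banach density), such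
that all elements `k` of `B` outside a set of upper Banach density zero have this property: all the
numbers `N k, 2 N k, ..., M N k` are differences `p_(n+1) - p_n` of consecutive primes with
`p_n ≡ a (mod N)`, for every `a` coprime to `N`, for at least `x ^ (1 - η)` indices `n` with
`p_n ≤ x`, for arbitrarily large `x`.

Authors: helper27 (plan, chain argument, primes), helper505, helper782, helper975, helper352,
helper253, helper405, helper372 (parts), helper634, helper880 and helper505 (invariant means, project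
BQ).  It rests on the coloured Maynard-Tao theorem of the starting files.
-/

namespace Pool.Agent.Results.MP_70e905_nt.ZFolnerBohrSets

open Filter

theorem result (N M : ℕ) (hN : 0 < N) :
    ∃ (T : Finset ℝ) (ρ : ℝ), 0 < ρ ∧
      (∃ c : ℝ, 0 < c ∧ ∃ L₀ : ℕ, ∀ L : ℕ, L₀ ≤ L → ∀ u : ℕ,
        c * L ≤ ({k : ℕ | u < k ∧ k ≤ u + L ∧
          ∀ θ ∈ T, |k * θ - round (k * θ)| < ρ}.ncard : ℝ)) ∧
      ∀ ε : ℝ, 0 < ε → ∃ L₀ : ℕ, ∀ L : ℕ, L₀ ≤ L → ∀ u : ℕ,
        ({k : ℕ | u < k ∧ k ≤ u + L ∧ (∀ θ ∈ T, |k * θ - round (k * θ)| < ρ) ∧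
          ¬ ∀ m : ℕ, 1 ≤ m → m ≤ M → ∀ a : ℕ, a.Coprime N → ∀ η : ℝ, 0 < η →
            ∃ᶠ x : ℝ in atTop, x ^ (1 - η) ≤ ({n : ℕ | (Nat.nth Nat.Prime n : ℝ) ≤ x ∧
              Nat.nth Nat.Prime n ≡ a [MOD N] ∧
              Nat.nth Nat.Prime (n + 1) = Nat.nth Nat.Prime n + N * (m * k)}.ncard : ℝ)}.ncard : ℝ)
          ≤ ε * L :=
  Pool.Agent.W27.FB.folner
    (Pool.Agent.W27.FB.main Pool.Agent.W505.FN.nul Pool.Agent.W782.FN.mean
      Pool.Agent.W975.FN.trg Pool.Agent.W352.FN.bohr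
      (Pool.Agent.W372.FN.appr Pool.Agent.W505.FN.nul Pool.Agent.W505.FN.wmh
        Pool.Agent.W975.FN.trg (Pool.Agent.W505.FN.clamp Pool.Agent.W975.FN.trg)))
    Pool.Agent.W505.FN.nul Pool.Agent.W253.FN.dens Pool.Agent.W405.FN.conv hN M

end Pool.Agent.Results.MP_70e905_nt.ZFolnerBohrSets
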